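import Pool.Agent.H25.EE.TargetsB

/-! ESY: sums of products over injective maps. -/

set_option autoImplicit false

namespace Pool.Agent.H86.EE5.ESY

open Pool.Agent.H25.EE Polynomial Finset

open scoped Classical in
/-- the sum over the injective maps with values at least `l` -/
private noncomputable def S (N : ℕ) (g : ℕ → ℝ) (m l : ℕ) : ℝ :=
  ∑ f : Fin m → Fin N, if Function.Injective f ∧ ∀ j, l ≤ (f j : ℕ) then ∏ j, g (f j) else 0

private theorem S_nonneg (N : ℕ) (g : ℕ → ℝ) (hg : ∀ n, 0 ≤ g n) (m l : ℕ) : 0 ≤ S N g m l := by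
  classical
  unfold S
  refine Finset.sum_nonneg fun f _ => ?_
  split_ifs
  · exact Finset.prod_nonneg fun j _ => hg _
  · exact le_rfl

private theorem sum_fin (N l : ℕ) (g : ℕ → ℝ) :
    ∑ n : Fin N, (if l ≤ (n : ℕ) then g n else 0) = ∑ n ∈ Finset.Ico l N, g n := by
  rw [Fin.sum_univ_eq_sum_range (fun n => if l ≤ n then g n else 0) N, ← Finset.sum_filter]
  refine Finset.sum_congr ?_ fun _ _ => rfl
  ext n
  simp only [Finset.mem_filter, Finset.mem_range, Finset.mem_Ico]
  tauto

private theorem step (N : ℕ) (g G : ℕ → ℝ) (hg : ∀ n, 0 ≤ g n)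
    (hG : ∀ l, ∑ n ∈ Finset.Ico l N, g n ≤ G l) (m l : ℕ) :
    S N g (m + 1) l ≤ ((m : ℝ) + 1) * (G l * S N g m (l + 1)) := by
  classical
  have hP : ∀ (k : ℕ) (f : Fin k → Fin N), 0 ≤ ∏ j, g (f j) := fun k f =>
    Finset.prod_nonneg fun j _ => hg _
  have h1 : S N g (m + 1) l ≤ ∑ f : Fin (m + 1) → Fin N, ∑ i : Fin (m + 1),
      (if (Function.Injective f ∧ ∀ j, l ≤ (f j : ℕ)) ∧ ∀ j, f i ≤ f j then
        ∏ j, g (f j) else 0) := by
    unfold S
    refine Finset.sum_le_sum fun f _ => ?_
    by_cases hf : Function.Injective f ∧ ∀ j, l ≤ (f j : ℕ)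
    · rw [if_pos hf]
      obtain ⟨i, -, hi⟩ := Finset.exists_min_image (Finset.univ : Finset (Fin (m + 1))) f
        ⟨0, Finset.mem_univ _⟩
      refine le_trans (le_of_eq ?_) (Finset.single_le_sum (f := fun i =>
        (if (Function.Injective f ∧ ∀ j, l ≤ (f j : ℕ)) ∧ ∀ j, f i ≤ f j then
        ∏ j, g (f j) else 0)) (fun i _ => ?_) (Finset.mem_univ i))
      · rw [if_pos ⟨hf, fun j => hi j (Finset.mem_univ j)⟩]
      · split_ifs
        · exact hP _ f
        · exact le_rfl
    · rw [if_neg hf]
      refine Finset.sum_nonneg fun i _ => ?_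
      split_ifs
      · exact hP _ f
      · exact le_rfl
  have h2 : ∀ i : Fin (m + 1), ∑ f : Fin (m + 1) → Fin N,
      (if (Function.Injective f ∧ ∀ j, l ≤ (f j : ℕ)) ∧ ∀ j, f i ≤ f j then
        ∏ j, g (f j) else 0) ≤ G l * S N g m (l + 1) := by
    intro i
    rw [← (Fin.insertNthEquiv (fun _ => Fin N) i).sum_comp, Fintype.sum_prod_type]
    calc ∑ n : Fin N, ∑ f : Fin m → Fin N,
          (if (Function.Injective ((Fin.insertNthEquiv (fun _ => Fin N) i) (n, f)) ∧
              ∀ j, l ≤ (((Fin.insertNthEquiv (fun _ => Fin N) i) (n, f)) j : ℕ)) ∧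
              ∀ j, ((Fin.insertNthEquiv (fun _ => Fin N) i) (n, f)) i ≤
                ((Fin.insertNthEquiv (fun _ => Fin N) i) (n, f)) j then
            ∏ j, g (((Fin.insertNthEquiv (fun _ => Fin N) i) (n, f)) j) else 0)
        ≤ ∑ n : Fin N, ∑ f : Fin m → Fin N, (if l ≤ (n : ℕ) then g n else 0) *
            (if Function.Injective f ∧ ∀ j, l + 1 ≤ (f j : ℕ) then ∏ j, g (f j) else 0) := by
          refine Finset.sum_le_sum fun n _ => Finset.sum_le_sum fun f _ => ?_
          have e1 : (Fin.insertNthEquiv (fun _ => Fin N) i) (n, f) =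
            (i.insertNth n f : Fin (m + 1) → Fin N) := rfl
          rw [e1]
          have e2 : ∏ j, g ((i.insertNth n f : Fin (m + 1) → Fin N) j) =
              g n * ∏ j, g (f j) := by
            rw [Fin.prod_univ_succAbove _ i]
            simp
          rw [e2]
          split_ifs with a1 a2 a3 a4
          · exact le_rfl
          · exfalso
            apply a3
            obtain ⟨⟨b1, b2⟩, b3⟩ := a1
            have c1 : Function.Injective f := by
              intro u v huv
              have := b1 (a₁ := i.succAbove u) (a₂ := i.succAbove v) (by simpa using huv)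
              exact Fin.succAbove_right_injective this
            refine ⟨c1, fun j => ?_⟩
            have c2 : n ≤ f j := by simpa using b3 (i.succAbove j)
            have c3 : n ≠ f j := by
              intro h
              have := b1 (a₁ := i) (a₂ := i.succAbove j) (by simpa using h)
              exact (Fin.succAbove_ne i j) this.symm
            have c4 : (n : ℕ) < (f j : ℕ) := Fin.lt_def.1 (lt_of_le_of_ne c2 c3)
            omega
          · exfalso
            apply a2
            simpa using a1.1.2 i
          · exfalso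
            apply a2
            simpa using a1.1.2 i
          all_goals first
            | exact mul_nonneg (hg _) (hP _ f)
            | simp
      _ = (∑ n : Fin N, (if l ≤ (n : ℕ) then g n else 0)) * S N g m (l + 1) := by
          unfold S
          rw [Finset.sum_mul_sum]
      _ ≤ G l * S N g m (l + 1) := by
          rw [sum_fin]
          exact mul_le_mul_of_nonneg_right (hG l) (S_nonneg N g hg _ _)
  rw [Finset.sum_comm] at h1
  refine h1.trans ((Finset.sum_le_sum fun i _ => h2 i).trans (le_of_eq ?_))
  rw [Finset.sum_const, Finset.card_univ, Fintype.card_fin, nsmul_eq_mul]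
  push_cast
  ring

private theorem main (N : ℕ) (g G : ℕ → ℝ) (hg : ∀ n, 0 ≤ g n)
    (hG : ∀ l, ∑ n ∈ Finset.Ico l N, g n ≤ G l) (m : ℕ) : ∀ l : ℕ,
    S N g m l ≤ (m.factorial : ℝ) * ∏ k ∈ Finset.range m, G (l + k) := by
  classical
  have hG0 : ∀ l, 0 ≤ G l := fun l => (Finset.sum_nonneg fun n _ => hg n).trans (hG l)
  induction m with
  | zero =>
    intro l
    unfold S
    simp only [Nat.factorial_zero, Nat.cast_one, Finset.range_zero, Finset.prod_empty, mul_one,
      Finset.univ_eq_empty, Fintype.sum_unique]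
    split_ifs
    · exact le_rfl
    · norm_num
  | succ m ih =>
    intro l
    refine (step N g G hg hG m l).trans ?_
    have h1 := mul_le_mul_of_nonneg_left (ih (l + 1)) (hG0 l)
    have h2 := mul_le_mul_of_nonneg_left h1 (by positivity : (0 : ℝ) ≤ (m : ℝ) + 1)
    refine h2.trans (le_of_eq ?_)
    rw [Finset.prod_range_succ', Nat.factorial_succ]
    have h3 : ∏ k ∈ Finset.range m, G (l + 1 + k) = ∏ k ∈ Finset.range m, G (l + (k + 1)) :=
      Finset.prod_congr rfl fun k _ => by congr 1; ring
    rw [h3]
    push_cast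
    rw [add_zero]
    ring

/-- sum over injective maps -/
theorem pf_ESY : T_ESY := by
  classical
  intro m N g G hg hG
  have h := main N g G hg hG m 0
  simp only [zero_add] at h
  refine le_trans (le_of_eq ?_) h
  unfold S
  rw [Finset.sum_filter]
  refine Finset.sum_congr rfl fun f _ => ?_
  simp

end Pool.Agent.H86.EE5.ESY
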