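import Pool.Agent.H25.EE.TargetsB

/-! TAY: derivatives of `exp (w z)` as power series. -/

set_option autoImplicit false

namespace Pool.Agent.H86.EE5.TAY

open Pool.Agent.H25.EE Polynomial Finset

/-- product of falling factorials -/
private theorem desc_mul (n i t : ℕ) : n.descFactorial i * n.descFactorial t =
    ∑ l ∈ range (min i t + 1), (l.factorial * i.choose l * t.choose l) *
      n.descFactorial (i + t - l) := by
  by_cases hn : n < i
  · rw [(Nat.descFactorial_eq_zero_iff_lt).2 hn, zero_mul]
    symm
    refine Finset.sum_eq_zero fun l hl => ?_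
    rw [Finset.mem_range] at hl
    rw [(Nat.descFactorial_eq_zero_iff_lt).2 (by omega), mul_zero]
  push Not at hn
  obtain ⟨k, rfl⟩ := Nat.exists_eq_add_of_le hn
  have h1 : ∑ l ∈ range (min i t + 1), (l.factorial * i.choose l * t.choose l) *
      (i + k).descFactorial (i + t - l) =
      ∑ l ∈ range (t + 1), (l.factorial * i.choose l * t.choose l) *
      (i + k).descFactorial (i + t - l) := by
    refine Finset.sum_subset ?_ fun l hl hl2 => ?_
    · intro l hl
      rw [Finset.mem_range] at hl ⊢
      omega
    · rw [Finset.mem_range] at hl hl2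
      rw [Nat.choose_eq_zero_of_lt (by omega : i < l)]
      simp
  rw [h1]
  have h2 : (i + k).descFactorial t = ∑ l ∈ range (t + 1),
      (l.factorial * i.choose l * t.choose l) * k.descFactorial (t - l) := by
    rw [Nat.descFactorial_eq_factorial_mul_choose, Nat.add_choose_eq,
      Finset.Nat.sum_antidiagonal_eq_sum_range_succ_mk, Finset.mul_sum]
    refine Finset.sum_congr rfl fun l hl => ?_
    rw [Finset.mem_range] at hl
    have hl2 : l ≤ t := by omega
    simp only
    rw [Nat.descFactorial_eq_factorial_mul_choose]
    have h3 := Nat.choose_mul_factorial_mul_factorial hl2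
    rw [← h3]
    ring
  rw [h2, Finset.mul_sum]
  refine Finset.sum_congr rfl fun l hl => ?_
  rw [Finset.mem_range] at hl
  have h4 := Nat.descFactorial_mul_descFactorial (n := i + k) (k := i) (m := i + t - l) (by omega)
  have h5 : i + k - i = k := by omega
  have h6 : i + t - l - i = t - l := by omega
  rw [h5, h6] at h4
  rw [← h4]
  ring

private theorem exp_sum (r : ℕ) (x : ℂ) :
    HasSum (fun n : ℕ => (n.descFactorial r : ℂ) * x ^ (n - r) / (n.factorial : ℂ))
      (Complex.exp x) := by
  have h1 : HasSum (fun n : ℕ => x ^ n / (n.factorial : ℂ)) (Complex.exp x) := by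
    rw [Complex.exp_eq_exp_ℂ]
    exact NormedSpace.expSeries_div_hasSum_exp x
  have hinj : Function.Injective (fun n : ℕ => n + r) := fun a b h => by
    simpa using h
  rw [← hinj.hasSum_iff]
  · have h2 : (fun n : ℕ => (n.descFactorial r : ℂ) * x ^ (n - r) / (n.factorial : ℂ)) ∘
        (fun n : ℕ => n + r) = fun n : ℕ => x ^ n / (n.factorial : ℂ) := by
      funext n
      simp only [Function.comp_apply, Nat.add_sub_cancel]
      have h3 := Nat.factorial_mul_descFactorial (n := n + r) (k := r) (by omega)
      rw [Nat.add_sub_cancel] at h3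
      have h4 : ((n + r).factorial : ℂ) = (n.factorial : ℂ) * ((n + r).descFactorial r : ℂ) := by
        exact_mod_cast h3.symm
      have h5 : (n.factorial : ℂ) ≠ 0 := by exact_mod_cast n.factorial_ne_zero
      have h6 : ((n + r).descFactorial r : ℂ) ≠ 0 := by
        have : (n + r).descFactorial r ≠ 0 := by
          rw [Ne, Nat.descFactorial_eq_zero_iff_lt]
          omega
        exact_mod_cast this
      rw [h4]
      field_simp
    rw [h2]
    exact h1
  · intro n hn
    have h2 : n < r := by
      by_contra h3
      push Not at h3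
      exact hn ⟨n - r, by simp only; omega⟩
    rw [(Nat.descFactorial_eq_zero_iff_lt).2 h2]
    simp

/-- derivatives of `exp (w z)` as power series -/
theorem pf_TAY : T_TAY := by
  intro i t w z
  have h1 : ∀ n : ℕ, (n.descFactorial i : ℂ) * w ^ (n - i) *
      ((n.descFactorial t : ℂ) * z ^ (n - t)) / (n.factorial : ℂ) =
      ∑ l ∈ range (min i t + 1), (((l.factorial * i.choose l * t.choose l : ℕ) : ℂ) *
        z ^ (i - l) * w ^ (t - l)) *
        ((n.descFactorial (i + t - l) : ℂ) * (w * z) ^ (n - (i + t - l)) / (n.factorial : ℂ)) := by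
    intro n
    have h2 : (n.descFactorial i : ℂ) * (n.descFactorial t : ℂ) =
        ∑ l ∈ range (min i t + 1), ((l.factorial * i.choose l * t.choose l : ℕ) : ℂ) *
          (n.descFactorial (i + t - l) : ℂ) := by
      exact_mod_cast desc_mul n i t
    have h3 : (n.descFactorial i : ℂ) * w ^ (n - i) *
      ((n.descFactorial t : ℂ) * z ^ (n - t)) / (n.factorial : ℂ) =
      (((n.descFactorial i : ℂ) * (n.descFactorial t : ℂ)) * (w ^ (n - i) * z ^ (n - t))) /
        (n.factorial : ℂ) := by ring
    rw [h3, h2, Finset.sum_mul, Finset.sum_div]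
    refine Finset.sum_congr rfl fun l hl => ?_
    rw [Finset.mem_range] at hl
    by_cases hn : n < i + t - l
    · rw [(Nat.descFactorial_eq_zero_iff_lt).2 hn]
      simp
    · push Not at hn
      have e1 : n - i = (n - (i + t - l)) + (t - l) := by omega
      have e2 : n - t = (n - (i + t - l)) + (i - l) := by omega
      rw [e1, e2, pow_add, pow_add, mul_pow]
      ring
  simp_rw [h1]
  rw [Finset.mul_sum]
  refine hasSum_sum fun l _ => ?_
  have h4 := (exp_sum (i + t - l) (w * z)).mul_left
    (((l.factorial * i.choose l * t.choose l : ℕ) : ℂ) * z ^ (i - l) * w ^ (t - l))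
  rw [mul_comm (Complex.exp (w * z))]
  exact h4

end Pool.Agent.H86.EE5.TAY
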